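import Pool.Agent.R713.TameRigid

/-!
# MP_82b8ed_al, Q1: a nilpotent group with a tame automorphism and no Anosov automorphism
-/

set_option autoImplicit false

namespace Pool.Agent.Results.MP_82b8ed_al.TameNoAnosov

variable {N : Type} [Group N]

/-- `x` and `y` are `φ`-conjugate: `x = z y φ(z)⁻¹` for some `z`. -/
def TwistedConj (φ : MulAut N) (x y : N) : Prop := ∃ z : N, x = z * y * (φ z)⁻¹

/-- The Reidemeister number `R(φ)`, the number of `φ`-conjugacy classes, is finite. -/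
def FiniteReidemeister (φ : MulAut N) : Prop := Finite (Quot (TwistedConj φ))

/-- `φ` is tame: `R(φⁿ) < ∞` for all `n > 0`. -/
def Tame (φ : MulAut N) : Prop := ∀ n : ℕ, 0 < n → FiniteReidemeister (φ ^ n)

/-- The term `γ_{i+1}(N)` of the lower central series, `γ₁(N) = N`. -/
def gam (N : Type) [Group N] (i : ℕ) : Subgroup N := Subgroup.lowerCentralSeries (⊤ : Subgroup N) i

/-- `c` is an eigenvalue of `φ`: for some `i` there is a nonzero homomorphism
`f : γ_i(N) / γ_{i+1}(N) → ℂ` with `f (φ x) = c f(x)`. -/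
def IsEigenvalue (φ : MulAut N) (c : ℂ) : Prop :=
  ∃ (i : ℕ) (f : N → ℂ), (∀ x ∈ gam N i, ∀ y ∈ gam N i, f (x * y) = f x + f y) ∧
    (∀ x ∈ gam N (i + 1), f x = 0) ∧ (∃ x ∈ gam N i, f x ≠ 0) ∧
    ∀ x ∈ gam N i, f (φ x) = c * f x

/-- `φ` is Anosov: no eigenvalue of `φ` has absolute value `1`. -/
def Anosov (φ : MulAut N) : Prop := ∀ c : ℂ, IsEigenvalue φ c → ‖c‖ ≠ 1

/-- There is a finitely generated torsion-free nilpotent group that has a tame automorphism and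
admits no Anosov automorphism. -/
theorem result : ∃ (N : Type) (_ : Group N), Group.FG N ∧ Group.IsNilpotent N ∧
    (∀ (x : N) (n : ℕ), 0 < n → x ^ n = 1 → x = 1) ∧ (∃ φ : MulAut N, Tame φ) ∧
    ¬ ∃ φ : MulAut N, Anosov φ := by
  refine ⟨Pool.Agent.R713.Tame.G, inferInstance, Pool.Agent.R713.Tame.fg,
    Pool.Agent.R713.Tame.nilpotent, Pool.Agent.R713.Tame.torsion_free,
    ⟨Pool.Agent.R713.Tame.phi, ?_⟩, ?_⟩
  · intro n hn
    obtain ⟨T, hT, h⟩ := Pool.Agent.R713.Tame.reps_phi hn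
    have : Finite T := hT
    refine Finite.of_surjective (fun t : T => Quot.mk _ (t : Pool.Agent.R713.Tame.G)) ?_
    intro q
    obtain ⟨g, rfl⟩ := Quot.exists_rep q
    obtain ⟨z, hz⟩ := h g
    exact ⟨⟨_, hz⟩, Quot.sound ⟨z, rfl⟩⟩
  · rintro ⟨φ, hφ⟩
    refine hφ (Pool.Agent.R713.Tame.Lam φ) ⟨2, Pool.Agent.R713.Tame.eig, ?_, ?_, ?_, ?_⟩
      (Pool.Agent.R713.Tame.norm_Lam φ)
    · exact fun x hx y hy => Pool.Agent.R713.Tame.eig_mul x y hx hy
    · exact Pool.Agent.R713.Tame.eig_last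
    · exact Pool.Agent.R713.Tame.eig_ne
    · exact fun x hx => (Pool.Agent.R713.Tame.eig_gamma φ x hx).2

end Pool.Agent.Results.MP_82b8ed_al.TameNoAnosov
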